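import Pool.Agent.H629.GC.Stm

set_option autoImplicit false

/-!
# Moments of non-Gaussian multiplicative chaos (MP_b1920d_pr): induction over the orders
-/

namespace Pool.Agent.H935.GC.ST

open MeasureTheory ProbabilityTheory Set Filter Pool.Agent.H629.GC

theorem t_CL : S_E0 → S_E1 → S_E2 → S_E3 →
    Ass (fun _Ω _T _ _ _ P X Q s vol β d =>
      ∀ r : ℝ, 0 ≤ r → β ^ 2 / 2 * r < d → Claim P X Q s vol β d r) := by
  intro h0 h1 h2 h3 Ω T i₁ i₂ iS i₃ iB P X Q s vol β d hX hQ hv hr hd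
  have key : ∀ n : ℕ, ∀ r : ℝ, 0 ≤ r → r ≤ (n : ℝ) + 1 → β ^ 2 / 2 * r < d →
      Claim P X Q s vol β d r := by
    intro n
    induction n with
    | zero =>
      intro r hr0 hr1 _
      rw [Nat.cast_zero, zero_add] at hr1
      exact h0 Ω T i₁ i₂ iS i₃ iB P X Q s vol β d hX hQ hv hr hd r hr0 hr1
    | succ n ih =>
      intro r hr0 hr1 hr2
      rcases le_or_gt r 1 with h | h
      · exact h0 Ω T i₁ i₂ iS i₃ iB P X Q s vol β d hX hQ hv hr hd r hr0 h
      · have hb : 0 ≤ β ^ 2 / 2 := by positivity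
        have hpos : 0 < r - 1 := by linarith
        have hle : r - 1 ≤ (n : ℝ) + 1 := by
          rw [Nat.cast_succ] at hr1
          linarith
        have hcond : β ^ 2 / 2 * (r - 1) < d :=
          lt_of_le_of_lt (mul_le_mul_of_nonneg_left (by linarith) hb) hr2
        have hcl : Claim P X Q s vol β d (r - 1) := ih (r - 1) hpos.le hle hcond
        have hpc : Piece P X Q s vol β d (r - 1) 0 := by
          rcases lt_or_ge (r - 1) 1 with h' | h'
          · exact h1 Ω T i₁ i₂ iS i₃ iB P X Q s vol β d hX hQ hv hr hd (r - 1) 0 hpos h'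
          · exact h2 Ω T i₁ i₂ iS i₃ iB P X Q s vol β d hX hQ hv hr hd (r - 1) 0 h' hcl
        have hcond' : β ^ 2 / 2 * (1 + (r - 1)) < d := by
          rwa [add_sub_cancel]
        have h4 := h3 Ω T i₁ i₂ iS i₃ iB P X Q s vol β d hX hQ hv hr hd (r - 1) hpos hcond' hpc
        rwa [sub_add_cancel] at h4
  intro r hr0 hr1
  obtain ⟨n, hn⟩ := exists_nat_ge r
  exact key n r hr0 (by linarith) hr1

end Pool.Agent.H935.GC.ST
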